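import Pool.Agent.Helper30.LS.Star2
import Pool.Agent.Helper63.LS.Layer
import Pool.Agent.Helper7.LS.Profile
import Pool.Agent.Helper7.LS.ArConc

/-!
# Lower bound `9/20` for the double lattice packing density of every convex body
-/

set_option autoImplicit false
namespace Pool.Agent.Helper7.LS
open MeasureTheory Metric
open Pool.Agent.Helper59.Pack Pool.Agent.Helper69.MD Pool.Agent.Helper63.ML
open scoped ENNReal Pointwise

theorem star_of' {K : Set E3} (hK : IsConvexBody K) {t₁ t₂ : P2} {D H β : ℝ} (hβ : 0 ≤ β)
    (hH : 0 < H) (hlen : ∀ y, len K y ≤ H) (h0 : 0 < det2 t₁ t₂)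
    (hD : det2 t₁ t₂ ≤ D) (hp : PlanarPacking K t₁ t₂)
    (hint : 4 * ∫ y, fw K H y < D) (hdens : β * (H * D) ≤ 2 * (volume K).toReal) :
    ENNReal.ofReal β ≤ deltaLstar K :=
  star_good hK hβ hH hlen h0 hD hp
    (fun _ _ hdet => good_of_integral' hK hdet (h0.trans_le hD) hH hint) hdens

/-- Every convex body in space has double lattice packing density at least `9/20`. -/
theorem deltaLstar_lower' {K : Set E3} (hK : IsConvexBody K) :
    ENNReal.ofReal (9 / 20) ≤ deltaLstar K := by
  obtain ⟨g, p₀, p₁, p₂, A, hm, hbig⟩ := exists_good hK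
  rw [← deltaLstar_image g K]
  have hK' := body_image hK g
  obtain ⟨c, hc0, hmax⟩ := exists_max hK'
  obtain ⟨t₁, t₂, hdet, hle, hpack⟩ := fary_quarter (proj_convex hK') (proj_compact hK') hm hbig
  have hfin : volume (proj (g '' K)) ≠ ⊤ := (proj_compact hK').measure_lt_top.ne
  rw [ENNReal.ofReal_le_iff_le_toReal hfin] at hle
  have hpack' : PlanarPacking (g '' K) t₁ t₂ := by
    intro m n hmn x hx y hy
    exact hpack m n hmn _ (pr_interior hx) _ (pr_interior hy)
  generalize g '' K = L at *
  set M := len L c with hM
  set a := (volume (proj L)).toReal with ha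
  set V := (volume L).toReal with hV
  have hle' : det2 t₁ t₂ ≤ 4 / 3 * a := by linarith
  have ha0 : 0 < a := proj_pos hK'
  have hVMa : V ≤ M * a := vol_le hK' hmax
  have hκ : 1 / 3 * a ≤ V / M := kappa_ge hK' hM.symm hc0
  have hκ' : 1 / 3 * a * M ≤ V := by rwa [le_div_iff₀ hc0] at hκ
  have hMa : 0 < M * a := mul_pos hc0 ha0
  have hV0 : 0 < V := by
    have : 0 < 1 / 3 * a * M := by positivity
    linarith
  by_cases hA : 3 / 5 * (M * a) ≤ V
  · -- the bulky case
    have hD : det2 t₁ t₂ ≤ 20 / 9 * (V / M) := by
      have : 3 / 5 * a ≤ V / M := by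
        rw [le_div_iff₀ hc0]
        linarith
      linarith
    refine star_good hK' (D := 20 / 9 * (V / M)) (H := 2 * M) (by norm_num) (by positivity)
      (fun y => (hmax y).trans (by linarith)) hdet hD hpack'
      (fun s₁ s₂ hs => good_of_integral hK' hs (hdet.trans_le hD) (by positivity) ?_) ?_
    · have e : ∫ y, fr L (2 * M) y = V / (3 * M) := by
        have h1 : ∀ y, fr L (2 * M) y = len L y / (3 * M) := by
          intro y
          have h2 := hmax y
          unfold fr
          rw [min_eq_left (by linarith), if_neg (by linarith), add_zero]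
          field_simp
        simp only [h1]
        rw [integral_div, integral_len hK']
      rw [e]
      have h2 : V / (3 * M) = 1 / 3 * (V / M) := by
        field_simp
      have h3 : 0 < V / M := div_pos hV0 hc0
      rw [h2]
      linarith
    · rw [← hV]
      apply le_of_eq
      field_simp
  · push Not at hA
    set s := V / (3 / 5 * (M * a)) with hs
    have hsV : s * (3 / 5 * (M * a)) = V := div_mul_cancel₀ _ (by positivity)
    have hs1 : s < 1 := (div_lt_one (by positivity)).2 hA
    have hs0 : 5 / 9 ≤ s := by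
      rw [hs, le_div_iff₀ (by positivity)]
      linarith
    have hspos : 0 < s := by linarith
    rcases profile (A := ar L) (s := s) hc0 ha0 (ar_zero L) (ar_nonneg L)
      (fun u _ v _ h => ar_anti hK' h)
      (fun u v l h1 h2 h3 h4 h5 h6 => ar_conc hK' ⟨c, rfl⟩ hc0 h1 h2 h3 h4 h5 h6)
      (vol_layer hK' hc0 hmax) hs0 hs1.le (by rw [← hV, ← hsV]; ring) with hB | hC
    · refine star_of' hK' (D := 2 * V / (9 / 20 * M)) (H := M) (by norm_num) hc0 hmax hdet ?_
        hpack' (lt_of_le_of_lt ?_ hB) ?_
      · refine hle'.trans ?_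
        rw [le_div_iff₀ (by positivity)]
        nlinarith
      · have := fw_layer hK' hc0
        linarith
      · rw [← hV]
        apply le_of_eq
        field_simp
    · refine star_of' hK' (D := 4 / 3 * a) (H := 2 * s * M) (by norm_num) (by positivity)
        (fun y => (hmax y).trans (by nlinarith)) hdet hle' hpack' (lt_of_le_of_lt ?_ hC) ?_
      · have := fw_layer hK' (H := 2 * s * M) (by positivity)
        linarith
      · rw [← hV, ← hsV]
        apply le_of_eq
        ring

end Pool.Agent.Helper7.LS
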