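import Pool.Agent.Helper7.LS.Defs
import Pool.Agent.Helper63.ML.GoodQ

/-!
# Lower bound `9/20` for the double lattice packing density: the geometric steps

`planar_inflate`, `deltaLstar_image` and the packing with a good centre.
-/

set_option autoImplicit false
namespace Pool.Agent.Helper7.LS
open MeasureTheory Metric
open Pool.Agent.Helper59.Pack Pool.Agent.Helper69.MD
open scoped ENNReal Pointwise

theorem planar_inflate {K : Set E3} {t₁ t₂ : P2} {D : ℝ} (h0 : 0 < det2 t₁ t₂)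
    (hD : det2 t₁ t₂ ≤ D) (hp : PlanarPacking K t₁ t₂) (hK : IsConvexBody K) :
    ∃ t₁' t₂' : P2, det2 t₁' t₂' = D ∧ PlanarPacking K t₁' t₂' := by
  set d := det2 t₁ t₂ with hd
  set ρ := Real.sqrt (D / d) with hρ
  have hρ1 : 1 ≤ ρ := by
    rw [hρ, Real.one_le_sqrt, one_le_div h0]
    exact hD
  have hρ0 : 0 < ρ := by linarith
  have hρ2 : ρ * ρ = D / d := Real.mul_self_sqrt (div_nonneg (by linarith) h0.le)
  refine ⟨ρ • t₁, ρ • t₂, ?_, ?_⟩
  · have e : det2 (ρ • t₁) (ρ • t₂) = (ρ * ρ) * d := by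
      rw [hd]
      simp only [det2, Pi.smul_apply, smul_eq_mul]
      ring
    rw [e, hρ2, div_mul_cancel₀ _ h0.ne']
  · intro m n hmn x hx y hy hxy
    have hc1 : 0 < 1 / ρ := by positivity
    have hc2 : 0 ≤ 1 - 1 / ρ := sub_nonneg.2 ((div_le_one hρ0).2 hρ1)
    have hz : (1 / ρ) • x + (1 - 1 / ρ) • y ∈ interior K :=
      hK.convex.interior hx hy hc1.le hc2 (by ring)
    refine hp m n hmn _ hz _ hy ?_
    have e1 : pr ((1 / ρ) • x + (1 - 1 / ρ) • y) - pr y = (1 / ρ) • (pr x - pr y) := by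
      apply P2_ext
      · simp only [Pi.sub_apply, Pi.smul_apply, pr_zero, PiLp.add_apply, PiLp.smul_apply, smul_eq_mul]
        ring
      · simp only [Pi.sub_apply, Pi.smul_apply, pr_one, PiLp.add_apply, PiLp.smul_apply, smul_eq_mul]
        ring
    rw [e1, hxy]
    simp only [smul_add, smul_smul]
    congr 2 <;> field_simp

private lemma pack_image30 (g : E3 ≃ₗᵢ[ℝ] E3) {X : Set E3} {Λ : Submodule ℤ E3} (h3 : IsPacking X Λ) :
    IsPacking (g '' X) (ZLattice.comap ℝ Λ g.symm.toContinuousLinearEquiv.toLinearMap) := by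
  have hmem : ∀ x, x ∈ ZLattice.comap ℝ Λ g.symm.toContinuousLinearEquiv.toLinearMap ↔ g.symm x ∈ Λ :=
    fun x => Iff.rfl
  intro u hu w hw huw
  rw [hmem] at hu hw
  have h4 := h3 _ hu _ hw (fun h => huw (g.symm.injective h))
  have e1 : u = g (g.symm u) := by simp
  have e2 : w = g (g.symm w) := by simp
  rw [e1, e2, Pool.Agent.Helper63.ML.image_vadd, Pool.Agent.Helper63.ML.image_vadd]
  have e3 : ∀ X : Set E3, interior (g '' X) = g '' interior X := fun X =>
    (g.toHomeomorph.image_interior X).symm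
  rw [e3, e3]
  exact (Set.disjoint_image_iff g.injective).mpr h4

private lemma density_image30 (g : E3 ≃ₗᵢ[ℝ] E3) (X : Set E3) (Λ : Submodule ℤ E3) :
    density X Λ = density (g '' X) (ZLattice.comap ℝ Λ g.symm.toContinuousLinearEquiv.toLinearMap) := by
  have hmem : ∀ x, x ∈ ZLattice.comap ℝ Λ g.symm.toContinuousLinearEquiv.toLinearMap ↔ g.symm x ∈ Λ :=
    fun x => Iff.rfl
  unfold density
  congr 1
  funext r
  congr 1
  let f : Λ ≃ ZLattice.comap ℝ Λ g.symm.toContinuousLinearEquiv.toLinearMap :=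
    { toFun := fun u => ⟨g u, by rw [hmem]; simp⟩
      invFun := fun u => ⟨g.symm u, (hmem _).mp u.2⟩
      left_inv := fun u => by simp
      right_inv := fun u => Subtype.ext (g.apply_symm_apply _) }
  rw [← f.tsum_eq]
  apply tsum_congr
  intro u
  exact (Pool.Agent.Helper63.ML.volume_term g X u r).symm

private lemma image_neg30 (g : E3 ≃ₗᵢ[ℝ] E3) (K : Set E3) : -(g '' K) = g '' (-K) := by
  ext x
  constructor
  · rintro ⟨y, hy, hyx⟩
    exact ⟨-y, by simpa using hy, by rw [map_neg, hyx, neg_neg]⟩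
  · rintro ⟨y, hy, rfl⟩
    exact ⟨-y, hy, by rw [map_neg]⟩

private lemma double_image30 (g : E3 ≃ₗᵢ[ℝ] E3) (K : Set E3) (v : E3) :
    (g '' K) ∪ (g v +ᵥ -(g '' K)) = g '' (K ∪ (v +ᵥ -K)) := by
  rw [image_neg30, Pool.Agent.Helper63.ML.image_vadd, Set.image_union]

theorem deltaLstar_le_image (g : E3 ≃ₗᵢ[ℝ] E3) (K : Set E3) : deltaLstar K ≤ deltaLstar (g '' K) := by
  unfold deltaLstar
  refine iSup_le fun Λ => iSup_le fun h1 => iSup_le fun h2 => iSup_le fun v => iSup_le fun hd =>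
    iSup_le fun h3 => ?_
  have hpack := pack_image30 g h3
  rw [← double_image30] at hpack
  have hdis : Disjoint (interior (g '' K)) (interior (g v +ᵥ -(g '' K))) := by
    rw [image_neg30, Pool.Agent.Helper63.ML.image_vadd]
    have e3 : ∀ X : Set E3, interior (g '' X) = g '' interior X := fun X =>
      (g.toHomeomorph.image_interior X).symm
    rw [e3, e3]
    exact (Set.disjoint_image_iff g.injective).mpr hd
  refine le_iSup_of_le (ZLattice.comap ℝ Λ g.symm.toContinuousLinearEquiv.toLinearMap)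
    (le_iSup_of_le inferInstance (le_iSup_of_le inferInstance (le_iSup_of_le (g v)
      (le_iSup_of_le hdis (le_iSup_of_le hpack ?_)))))
  rw [double_image30]
  exact (density_image30 g _ Λ).le

theorem deltaLstar_image (g : E3 ≃ₗᵢ[ℝ] E3) (K : Set E3) :
    deltaLstar (g '' K) = deltaLstar K := by
  apply le_antisymm _ (deltaLstar_le_image g K)
  have h := deltaLstar_le_image g.symm (g '' K)
  rwa [← Set.image_comp, show (g.symm : E3 → E3) ∘ g = id from funext fun x => by simp,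
    Set.image_id] at h

/-- The packing from a planar packing and a good centre. -/
theorem star_good {K : Set E3} (hK : IsConvexBody K) {t₁ t₂ : P2} {D H β : ℝ} (hβ : 0 ≤ β)
    (hH : 0 < H) (hlen : ∀ y, len K y ≤ H) (h0 : 0 < det2 t₁ t₂)
    (hD : det2 t₁ t₂ ≤ D) (hp : PlanarPacking K t₁ t₂)
    (hgood : ∀ t₁ t₂ : P2, det2 t₁ t₂ = D →
      ∃ w : P2, ∀ m n : Fin 4 → ℤ, Function.Injective (fun i => (m i, n i)) →
      (∀ i, 2 * len K ((1 / 2 : ℝ) • (w + (m i : ℝ) • t₁ + (n i : ℝ) • t₂)) ≤ H) ∧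
      2 * ∑ i, len K ((1 / 2 : ℝ) • (w + (m i : ℝ) • t₁ + (n i : ℝ) • t₂)) ≤ 3 * H)
    (hdens : β * (H * D) ≤ 2 * (volume K).toReal) :
    ENNReal.ofReal β ≤ deltaLstar K := by
  have hD0 : 0 < D := h0.trans_le hD
  obtain ⟨s₁, s₂, hdet, hpack⟩ := planar_inflate h0 hD hp hK
  refine le_trans ?_ (deltaLstar_ge hK hdet hD0 hH hpack hlen (hgood s₁ s₂ hdet))
  have hHD : 0 < H * D := mul_pos hH hD0
  rw [ENNReal.le_div_iff_mul_le (Or.inl (ENNReal.ofReal_pos.2 hHD).ne')
    (Or.inl ENNReal.ofReal_ne_top), ← ENNReal.ofReal_mul hβ]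
  refine le_trans (ENNReal.ofReal_le_ofReal hdens) (le_of_eq ?_)
  rw [ENNReal.ofReal_mul (by norm_num), ENNReal.ofReal_toReal hK.isCompact.measure_lt_top.ne]
  simp

theorem lev_zero (K : Set E3) : lev K 0 = proj K := by
  ext y
  exact ⟨fun h => h.1, fun h => ⟨h, len_nonneg K y⟩⟩

theorem lev_anti (K : Set E3) {u v : ℝ} (h : u ≤ v) : lev K v ⊆ lev K u :=
  fun _ hy => ⟨hy.1, h.trans hy.2⟩

theorem ar_nonneg (K : Set E3) (u : ℝ) : 0 ≤ ar K u := ENNReal.toReal_nonneg

theorem ar_zero (K : Set E3) : ar K 0 = (volume (proj K)).toReal := by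
  rw [ar, lev_zero]

theorem ar_anti {K : Set E3} (hK : IsConvexBody K) {u v : ℝ} (h : u ≤ v) : ar K v ≤ ar K u := by
  refine ENNReal.toReal_mono ?_ (measure_mono (lev_anti K h))
  exact ne_top_of_le_ne_top (proj_compact hK).measure_lt_top.ne (measure_mono fun y hy => hy.1)

end Pool.Agent.Helper7.LS
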